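import Pool.Agent.H95.CF.T2B
import Pool.Agent.H19.CN.NRT

/-! Complete family, row PNPQ: the number of the unit lines. -/

set_option autoImplicit false

open NumberField Module MeasureTheory Set Filter
open scoped nonZeroDivisors Real

namespace Pool.Agent.H73.CF

open Pool.Agent.H31.CN Pool.Agent.H95.CF

/-- the number of the square roots -/
theorem roots_le {p : ℕ} (hp : p.Prime) (D : ℤ) : nrt p 1 0 D ≤ 2 := by
  classical
  have : Fact p.Prime := ⟨hp⟩
  rw [Pool.Agent.H19.CN.nrt_zmod]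
  by_cases h : ∃ a : ZMod p, a ^ 2 + (D : ZMod p) = 0
  · obtain ⟨a, ha⟩ := h
    have hsub : (Finset.univ.filter (fun t : ZMod p => ((1 : ℤ) : ZMod p) * t ^ 2 +
        ((0 : ℤ) : ZMod p) * t + (D : ZMod p) = 0)) ⊆ {a, -a} := by
      intro t ht
      have h1 := (Finset.mem_filter.1 ht).2
      push_cast at h1
      have h2 : (t - a) * (t + a) = 0 := by linear_combination h1 - ha
      rcases mul_eq_zero.1 h2 with h3 | h3
      · rw [sub_eq_zero.1 h3]; simp
      · rw [eq_neg_of_add_eq_zero_left h3]; simp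
    exact (Finset.card_le_card hsub).trans Finset.card_le_two
  · rw [Finset.card_eq_zero.2]
    · exact Nat.zero_le _
    · refine Finset.filter_eq_empty_iff.2 fun t _ ht => h ⟨t, ?_⟩
      push_cast at ht
      linear_combination ht

/-- odd primes -/
theorem prt_odd {p : ℕ} (hp : p.Prime) (h2 : p ≠ 2) (A B C D : ℤ) (hD : 4 * A * C - B ^ 2 = D)
    (hpp : ¬ (p : ℤ) ^ 2 ∣ D) :
    (if (p : ℤ) ∣ A then 1 else 0) + nrt p A B C = nrt p 1 0 D := by
  classical
  have : Fact p.Prime := ⟨hp⟩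
  have hpr : Prime (p : ℤ) := Nat.prime_iff_prime_int.mp hp
  have h2p : ¬ (p : ℤ) ∣ 2 := by
    intro h
    have h' : p ∣ 2 := by exact_mod_cast h
    exact h2 ((Nat.prime_dvd_prime_iff_eq hp Nat.prime_two).1 h')
  by_cases hA : (p : ℤ) ∣ A
  · rw [if_pos hA]
    have hA0 : (A : ZMod p) = 0 := (ZMod.intCast_zmod_eq_zero_iff_dvd _ p).2 hA
    have hDz : (D : ZMod p) = -(B : ZMod p) ^ 2 := by
      rw [← hD]; push_cast; rw [hA0]; ring
    rw [Pool.Agent.H19.CN.nrt_zmod, Pool.Agent.H19.CN.nrt_zmod]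
    by_cases hB : (p : ℤ) ∣ B
    · have hB0 : (B : ZMod p) = 0 := (ZMod.intCast_zmod_eq_zero_iff_dvd _ p).2 hB
      have hC : ¬ (p : ℤ) ∣ C := by
        intro hC
        apply hpp
        obtain ⟨a, rfl⟩ := hA
        obtain ⟨b, rfl⟩ := hB
        obtain ⟨c, rfl⟩ := hC
        exact ⟨4 * a * c - b ^ 2, by rw [← hD]; ring⟩
      have hC0 : (C : ZMod p) ≠ 0 := fun h => hC ((ZMod.intCast_zmod_eq_zero_iff_dvd _ p).1 h)
      have e1 : (Finset.univ.filter (fun t : ZMod p => (A : ZMod p) * t ^ 2 + (B : ZMod p) * t +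
          (C : ZMod p) = 0)) = ∅ := by
        refine Finset.filter_eq_empty_iff.2 fun t _ ht => hC0 ?_
        rw [hA0, hB0] at ht
        linear_combination ht
      have e2 : (Finset.univ.filter (fun t : ZMod p => ((1 : ℤ) : ZMod p) * t ^ 2 +
          ((0 : ℤ) : ZMod p) * t + (D : ZMod p) = 0)) = {0} := by
        ext t
        rw [Finset.mem_filter, Finset.mem_singleton, hDz, hB0]
        push_cast
        constructor
        · rintro ⟨-, h⟩
          have : t ^ 2 = 0 := by linear_combination h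
          exact pow_eq_zero_iff (two_ne_zero) |>.1 this
        · rintro rfl
          exact ⟨Finset.mem_univ _, by ring⟩
      rw [e1, e2, Finset.card_empty, Finset.card_singleton]
    · have hB0 : (B : ZMod p) ≠ 0 := fun h => hB ((ZMod.intCast_zmod_eq_zero_iff_dvd _ p).1 h)
      have e1 : (Finset.univ.filter (fun t : ZMod p => (A : ZMod p) * t ^ 2 + (B : ZMod p) * t +
          (C : ZMod p) = 0)) = {-(C : ZMod p) / (B : ZMod p)} := by
        ext t
        rw [Finset.mem_filter, Finset.mem_singleton, hA0, eq_div_iff hB0]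
        constructor
        · rintro ⟨-, h⟩
          linear_combination h
        · intro h
          exact ⟨Finset.mem_univ _, by linear_combination h⟩
      have e2 : (Finset.univ.filter (fun t : ZMod p => ((1 : ℤ) : ZMod p) * t ^ 2 +
          ((0 : ℤ) : ZMod p) * t + (D : ZMod p) = 0)) = {(B : ZMod p), -(B : ZMod p)} := by
        ext t
        rw [Finset.mem_filter, Finset.mem_insert, Finset.mem_singleton, hDz]
        push_cast
        constructor
        · rintro ⟨-, h⟩
          have h3 : (t - B) * (t + B) = 0 := by linear_combination h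
          rcases mul_eq_zero.1 h3 with h4 | h4
          · exact Or.inl (sub_eq_zero.1 h4)
          · exact Or.inr (eq_neg_of_add_eq_zero_left h4)
        · rintro (rfl | rfl)
          · exact ⟨Finset.mem_univ _, by ring⟩
          · exact ⟨Finset.mem_univ _, by ring⟩
      rw [e1, e2, Finset.card_singleton, Finset.card_pair]
      intro h
      have h3 : ((2 * B : ℤ) : ZMod p) = 0 := by
        push_cast
        linear_combination h
      rcases hpr.dvd_or_dvd ((ZMod.intCast_zmod_eq_zero_iff_dvd _ p).1 h3) with h4 | h4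
      · exact h2p h4
      · exact hB h4
  · rw [if_neg hA, zero_add]
    have h2A : ¬ (p : ℤ) ∣ 2 * A := fun h => (hpr.dvd_or_dvd h).elim h2p hA
    obtain ⟨x, a, hxa⟩ := (Prime.coprime_iff_not_dvd hpr).2 h2A
    have hcop : ∀ z : ℤ, ¬ (p : ℤ) ∣ z → IsCoprime z (p : ℤ) := fun z hz =>
      ((Prime.coprime_iff_not_dvd hpr).2 hz).symm
    have ha : ¬ (p : ℤ) ∣ a := by
      intro h
      have : (p : ℤ) ∣ 1 := by
        rw [← hxa]
        exact dvd_add (Dvd.intro_left x rfl) (Dvd.dvd.mul_right h _)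
      exact hpr.not_isUnit (isUnit_of_dvd_one this)
    have hk : (p : ℤ) ∣ 2 * A * a - 1 := ⟨-x, by linear_combination hxa⟩
    refine (Pool.Agent.H19.CN.nrt_sub p hp.pos A B C 1 0 D a (a ^ 2 * A) (-(a * B)) (hcop a ha)
      (hcop _ ?_) ?_ ?_ ?_).symm
    · intro h
      rcases hpr.dvd_or_dvd h with h3 | h3
      · exact ha (hpr.dvd_of_dvd_pow h3)
      · exact hA h3
    · have : a ^ 2 * A * 1 - A * a ^ 2 = 0 := by ring
      rw [this]; exact dvd_zero _
    · have : a ^ 2 * A * 0 - (2 * A * a * (-(a * B)) + B * a) = (2 * A * a - 1) * (a * B) := by ring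
      rw [this]; exact Dvd.dvd.mul_right hk _
    · have : a ^ 2 * A * D - (A * (-(a * B)) ^ 2 + B * (-(a * B)) + C) =
          (2 * A * a - 1) * (C * (2 * A * a + 1) - a * B ^ 2) := by
        rw [← hD]; ring
      rw [this]; exact Dvd.dvd.mul_right hk _

theorem nrt_2 (A B C : ℤ) : nrt 2 A B C =
    (if (2 : ℤ) ∣ C then 1 else 0) + (if (2 : ℤ) ∣ A + B + C then 1 else 0) := by
  unfold nrt
  rw [Finset.card_filter, Finset.sum_range_succ, Finset.sum_range_one]
  congr 1
  · simp
  · simp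

theorem prt_two (A B C D : ℤ) (hD : 4 * A * C - B ^ 2 = D)
    (hne : D % 4 = 3 ∨ D % 16 = 4 ∨ D % 16 = 8) :
    (((if (2 : ℤ) ∣ A then 1 else 0) + nrt 2 A B C : ℕ) : ℤ) =
      1 + (if D % 8 = 7 then 1 else if D % 8 = 3 then -1 else 0) := by
  rw [nrt_2]
  have hodd : ∀ b : ℤ, ∃ e : ℤ, (2 * b + 1) ^ 2 = 8 * e + 1 := by
    intro b
    obtain ⟨e, he⟩ := Int.even_mul_succ_self b
    exact ⟨e, by linear_combination 4 * he⟩
  have hsq : ∀ b : ℤ, ∃ e : ℤ, (2 * b) ^ 2 = 4 * e ∧ (e % 4 = 0 ∨ e % 4 = 1) := by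
    intro b
    rcases Int.even_or_odd' b with ⟨e, rfl | rfl⟩
    · exact ⟨4 * e ^ 2, by ring, by omega⟩
    · exact ⟨4 * (e ^ 2 + e) + 1, by ring, by omega⟩
  rcases Int.even_or_odd' B with ⟨b, rfl | rfl⟩
  · obtain ⟨e, he, he'⟩ := hsq b
    rw [he] at hD
    rcases Int.even_or_odd' A with ⟨a, rfl | rfl⟩ <;>
      rcases Int.even_or_odd' C with ⟨c, rfl | rfl⟩
    · exfalso
      have h1 : 4 * (2 * a) * (2 * c) - 4 * e = 16 * (a * c) - 4 * e := by ring
      rw [h1] at hD
      generalize a * c = x at *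
      omega
    · have h1 : 4 * (2 * a) * (2 * c + 1) - 4 * e = 16 * (a * c) + 8 * a - 4 * e := by ring
      rw [h1] at hD
      generalize a * c = x at *
      split_ifs <;> omega
    · have h1 : 4 * (2 * a + 1) * (2 * c) - 4 * e = 16 * (a * c) + 8 * c - 4 * e := by ring
      rw [h1] at hD
      generalize a * c = x at *
      split_ifs <;> omega
    · have h1 : 4 * (2 * a + 1) * (2 * c + 1) - 4 * e =
          16 * (a * c) + 8 * a + 8 * c + 4 - 4 * e := by ring
      rw [h1] at hD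
      generalize a * c = x at *
      split_ifs <;> omega
  · obtain ⟨e, he⟩ := hodd b
    rw [he] at hD
    rcases Int.even_or_odd' A with ⟨a, rfl | rfl⟩ <;>
      rcases Int.even_or_odd' C with ⟨c, rfl | rfl⟩
    · have h1 : 4 * (2 * a) * (2 * c) - (8 * e + 1) = 16 * (a * c) - 8 * e - 1 := by ring
      rw [h1] at hD
      generalize a * c = x at *
      split_ifs <;> omega
    · have h1 : 4 * (2 * a) * (2 * c + 1) - (8 * e + 1) = 16 * (a * c) + 8 * a - 8 * e - 1 := by
        ring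
      rw [h1] at hD
      generalize a * c = x at *
      split_ifs <;> omega
    · have h1 : 4 * (2 * a + 1) * (2 * c) - (8 * e + 1) = 16 * (a * c) + 8 * c - 8 * e - 1 := by
        ring
      rw [h1] at hD
      generalize a * c = x at *
      split_ifs <;> omega
    · have h1 : 4 * (2 * a + 1) * (2 * c + 1) - (8 * e + 1) =
          16 * (a * c) + 8 * a + 8 * c + 3 - 8 * e := by ring
      rw [h1] at hD
      generalize a * c = x at *
      split_ifs <;> omega

/-- `p ^ 2` does not divide a fundamental discriminant, for odd `p` -/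
theorem fu_odd {p : ℕ} (hp : p.Prime) (h2 : p ≠ 2) {D : ℕ} (hD : Pool.Agent.H91.CF.Fu D) :
    ¬ (p : ℤ) ^ 2 ∣ (D : ℤ) := by
  intro h
  have h1 : p * p ∣ D := by
    have h3 : ((p ^ 2 : ℕ) : ℤ) ∣ (D : ℤ) := by
      push_cast; exact h
    have h4 := Int.natCast_dvd_natCast.1 h3
    rwa [sq] at h4
  rcases hD with ⟨-, hs⟩ | ⟨h4, hs, -⟩
  · exact hp.not_isUnit (hs p h1)
  · obtain ⟨k, rfl⟩ := h4
    rw [Nat.mul_div_cancel_left _ (by norm_num : 0 < 4)] at hs
    have hc : Nat.Coprime (p * p) 4 := by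
      have h5 : Nat.Coprime p 2 := (Nat.coprime_primes hp Nat.prime_two).2 h2
      have h6 : Nat.Coprime p 4 := by
        have := Nat.Coprime.pow_right 2 h5
        norm_num at this
        exact this
      exact Nat.Coprime.mul_left h6 h6
    exact hp.not_isUnit (hs p (hc.dvd_of_dvd_mul_left h1))

theorem fu_two {D : ℕ} (hD : Pool.Agent.H91.CF.Fu D) :
    (D : ℤ) % 4 = 3 ∨ (D : ℤ) % 16 = 4 ∨ (D : ℤ) % 16 = 8 := by
  rcases hD with ⟨h, -⟩ | ⟨h4, -, h⟩
  · left; omega
  · obtain ⟨k, rfl⟩ := h4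
    rw [Nat.mul_div_cancel_left _ (by norm_num : 0 < 4)] at h
    right
    rcases h with h | h
    · left; omega
    · right; omega

theorem pf_NPQ : T_NPQ := by
  intro f D p Q hD hQ hp _
  obtain ⟨-, hdsc⟩ := hQ
  have hp2 := hp.two_le
  have key : (prt p Q : ℤ) = 1 + Pool.Agent.H91.CF.ch p D := by
    unfold prt Pool.Agent.H91.CF.ch
    by_cases h2 : p = 2
    · subst h2
      rw [if_pos rfl]
      exact prt_two Q.1 Q.2.1 Q.2.2 D hdsc (fu_two hD)
    · rw [if_neg h2, prt_odd hp h2 Q.1 Q.2.1 Q.2.2 D hdsc (fu_odd hp h2 hD)]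
      ring
  have hch : Pool.Agent.H91.CF.ch p D ≤ 1 := by
    unfold Pool.Agent.H91.CF.ch
    split_ifs
    · exact le_rfl
    · norm_num
    · norm_num
    · have := roots_le hp (D : ℤ)
      have h3 : ((nrt p 1 0 (D : ℤ) : ℕ) : ℤ) ≤ 2 := by exact_mod_cast this
      linarith
  have hpz : (2 : ℤ) ≤ p := by exact_mod_cast hp2
  unfold Pool.Agent.H91.CF.npQ Pool.Agent.H91.CF.npD Pool.Agent.H91.CF.npt
  by_cases hf : p ^ 2 ∣ f
  · rw [if_pos hf, if_pos hf]
    exact ⟨rfl, by linarith⟩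
  · rw [if_neg hf, if_neg hf]
    exact ⟨by rw [key]; ring, by linarith⟩

end Pool.Agent.H73.CF
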