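import Pool.Agent.H31.CF.U3
import Pool.Agent.H73.CF.PNPQ

/-! Complete family, row UNPQ: the number of the unit lines. -/

set_option autoImplicit false

open scoped Real Matrix MatrixGroups

namespace Pool.Agent.H73.CFU

open Pool.Agent.H31.CN Pool.Agent.H91.CF Pool.Agent.H31.CF

theorem np_eq (p : ℕ) (A B C : ℤ) : (np p A B C : ℤ) = p + 1 - nrt p A B C := by
  have h := Finset.card_filter_add_card_filter_not (s := Finset.range p)
    (fun j : ℕ => (p : ℤ) ∣ A * (j : ℤ) ^ 2 + B * (j : ℤ) + C)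
  rw [Finset.card_range] at h
  unfold np nrt
  push_cast
  have h' : (((Finset.range p).filter (fun j : ℕ =>
      (p : ℤ) ∣ A * (j : ℤ) ^ 2 + B * (j : ℤ) + C)).card : ℤ) +
      ((Finset.range p).filter (fun j : ℕ =>
      ¬ (p : ℤ) ∣ A * (j : ℤ) ^ 2 + B * (j : ℤ) + C)).card = p := by
    exact_mod_cast h
  linarith

theorem rd_dvd (f : ℕ) : rd f ∣ f := by
  unfold rd
  exact Nat.prod_primeFactors_dvd f

theorem rd_mul (f : ℕ) : rd f * f1 f = f := by
  unfold f1
  exact Nat.mul_div_cancel' (rd_dvd f)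

theorem dvd_f1 {f p : ℕ} (hf : 1 ≤ f) (hp : p.Prime) (hpf : p ∣ f) : p ∣ f1 f ↔ p ^ 2 ∣ f := by
  have hm : p ∈ f.primeFactors := Nat.mem_primeFactors.2 ⟨hp, hpf, by omega⟩
  have h1 : rd f = p * ∏ q ∈ f.primeFactors.erase p, q := by
    unfold rd
    exact (Finset.mul_prod_erase _ _ hm).symm
  have h2 := rd_mul f
  constructor
  · intro h
    rw [← h2, sq]
    exact Nat.mul_dvd_mul (h1 ▸ Dvd.intro _ rfl) h
  · intro h
    rw [← h2, h1, sq, mul_assoc] at h
    have h3 : p ∣ (∏ q ∈ f.primeFactors.erase p, q) * f1 f :=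
      Nat.dvd_of_mul_dvd_mul_left hp.pos h
    rcases (hp.dvd_mul).1 h3 with h4 | h4
    · obtain ⟨q, hq, hq'⟩ := (Prime.dvd_finsetProd_iff hp.prime _).1 h4
      have hq2 := Finset.mem_erase.1 hq
      have hqp := (Nat.mem_primeFactors.1 hq2.2).1
      exact absurd ((Nat.prime_dvd_prime_iff_eq hp hqp).1 hq').symm hq2.1
    · exact h4

theorem nrt_sq {p : ℕ} (hp : p.Prime) (A : ℤ) (hA : ¬ (p : ℤ) ∣ A) : nrt p A 0 0 = 1 := by
  classical
  have : Fact p.Prime := ⟨hp⟩
  have hA0 : (A : ZMod p) ≠ 0 := fun h => hA ((ZMod.intCast_zmod_eq_zero_iff_dvd _ p).1 h)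
  rw [Pool.Agent.H19.CN.nrt_zmod, Finset.card_eq_one]
  refine ⟨0, ?_⟩
  ext t
  rw [Finset.mem_filter, Finset.mem_singleton]
  push_cast
  constructor
  · rintro ⟨-, h⟩
    have h2 : (A : ZMod p) * t ^ 2 = 0 := by linear_combination h
    rcases mul_eq_zero.1 h2 with h3 | h3
    · exact absurd h3 hA0
    · exact pow_eq_zero_iff (two_ne_zero) |>.1 h3
  · rintro rfl
    exact ⟨Finset.mem_univ _, by ring⟩

theorem nrt_scale {p : ℕ} (hp : p.Prime) (A B C k : ℤ) (hk : ¬ (p : ℤ) ∣ k) :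
    nrt p A (k * B) (k ^ 2 * C) = nrt p A B C := by
  have hpr : Prime (p : ℤ) := Nat.prime_iff_prime_int.mp hp
  have hc : IsCoprime k (p : ℤ) := ((Prime.coprime_iff_not_dvd hpr).2 hk).symm
  refine (Pool.Agent.H19.CN.nrt_sub p hp.pos A (k * B) (k ^ 2 * C) A B C k (k ^ 2) 0 hc
    (IsCoprime.pow_left hc) ?_ ?_ ?_).symm
  · have : k ^ 2 * A - A * k ^ 2 = 0 := by ring
    rw [this]; exact dvd_zero _
  · have : k ^ 2 * B - (2 * A * k * 0 + k * B * k) = 0 := by ring
    rw [this]; exact dvd_zero _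
  · have : k ^ 2 * C - (A * 0 ^ 2 + k * B * 0 + k ^ 2 * C) = 0 := by ring
    rw [this]; exact dvd_zero _

theorem nrt_disc {p : ℕ} (hp : p.Prime) (h2 : p ≠ 2) (A B C D : ℤ) (hD : 4 * A * C - B ^ 2 = D)
    (hA : ¬ (p : ℤ) ∣ A) : nrt p A B C = nrt p 1 0 D := by
  have hpr : Prime (p : ℤ) := Nat.prime_iff_prime_int.mp hp
  have h2p : ¬ (p : ℤ) ∣ 2 := by
    intro h
    have h' : p ∣ 2 := by exact_mod_cast h
    exact h2 ((Nat.prime_dvd_prime_iff_eq hp Nat.prime_two).1 h')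
  have h2A : ¬ (p : ℤ) ∣ 2 * A := fun h => (hpr.dvd_or_dvd h).elim h2p hA
  obtain ⟨x, a, hxa⟩ := (Prime.coprime_iff_not_dvd hpr).2 h2A
  have hcop : ∀ z : ℤ, ¬ (p : ℤ) ∣ z → IsCoprime z (p : ℤ) := fun z hz =>
    ((Prime.coprime_iff_not_dvd hpr).2 hz).symm
  have ha : ¬ (p : ℤ) ∣ a := by
    intro h
    have : (p : ℤ) ∣ 1 := by
      rw [← hxa]
      exact dvd_add (Dvd.intro_left x rfl) (Dvd.dvd.mul_right h _)
    exact hpr.not_isUnit (isUnit_of_dvd_one this)
  have hk : (p : ℤ) ∣ 2 * A * a - 1 := ⟨-x, by linear_combination hxa⟩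
  refine (Pool.Agent.H19.CN.nrt_sub p hp.pos A B C 1 0 D a (a ^ 2 * A) (-(a * B)) (hcop a ha)
    (hcop _ ?_) ?_ ?_ ?_).symm
  · intro h
    rcases hpr.dvd_or_dvd h with h3 | h3
    · exact ha (hpr.dvd_of_dvd_pow h3)
    · exact hA h3
  · have : a ^ 2 * A * 1 - A * a ^ 2 = 0 := by ring
    rw [this]; exact dvd_zero _
  · have : a ^ 2 * A * 0 - (2 * A * a * (-(a * B)) + B * a) = (2 * A * a - 1) * (a * B) := by ring
    rw [this]; exact Dvd.dvd.mul_right hk _
  · have : a ^ 2 * A * D - (A * (-(a * B)) ^ 2 + B * (-(a * B)) + C) =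
        (2 * A * a - 1) * (C * (2 * A * a + 1) - a * B ^ 2) := by
      rw [← hD]; ring
    rw [this]; exact Dvd.dvd.mul_right hk _

theorem pf_NPQ : T_NPQ := by
  intro f p hf hp hpf
  have hf1 := dvd_f1 hf hp hpf
  refine ⟨?_, ?_⟩
  · intro Q hQ
    unfold npQ
    rw [np_eq]
    by_cases h : p ^ 2 ∣ f
    · rw [if_pos h]
      have h1 : (p : ℤ) ∣ (f1 f : ℤ) := by exact_mod_cast hf1.2 h
      have h3 : nrt p Q.1 ((f1 f : ℤ) * Q.2.1) ((f1 f : ℤ) ^ 2 * Q.2.2) = nrt p Q.1 0 0 := by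
        refine Pool.Agent.H19.CN.nrt_congr p hp.pos _ _ _ _ _ _ ?_ ?_ ?_
        · rw [sub_self]; exact dvd_zero _
        · rw [sub_zero]; exact Dvd.dvd.mul_right h1 _
        · rw [sub_zero]; exact Dvd.dvd.mul_right (dvd_pow h1 (by norm_num)) _
      rw [h3, nrt_sq hp _ hQ]
      push_cast
      ring
    · rw [if_neg h]
      have h1 : ¬ (p : ℤ) ∣ (f1 f : ℤ) := fun h' => h (hf1.1 (by exact_mod_cast h'))
      rw [nrt_scale hp _ _ _ _ h1]
      unfold prt
      rw [if_neg hQ]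
      push_cast
      ring
  · intro D A B C hD4 hA hE
    unfold npD npt
    rw [np_eq]
    by_cases h : p ^ 2 ∣ f
    · rw [if_pos h]
      have h1 : (p : ℤ) ∣ (f1 f : ℤ) := by exact_mod_cast hf1.2 h
      have h3 : nrt p A B C = 1 := by
        by_cases h2 : p = 2
        · subst h2
          rw [Pool.Agent.H73.CF.nrt_2]
          obtain ⟨k, hk⟩ := h1
          have hE' : B ^ 2 = 4 * (A * C - k ^ 2 * D) := by
            rw [hk] at hE
            push_cast at hE
            linear_combination -hE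
          have hB : (2 : ℤ) ∣ B := by
            have : (2 : ℤ) ∣ B ^ 2 := ⟨2 * (A * C - k ^ 2 * D), by rw [hE']; ring⟩
            exact Int.prime_two.dvd_of_dvd_pow this
          have hA2 : ¬ (2 : ℤ) ∣ A := by exact_mod_cast hA
          split_ifs <;> omega
        · rw [nrt_disc hp h2 A B C _ hE hA]
          have h4 : nrt p 1 0 ((f1 f : ℤ) ^ 2 * D) = nrt p 1 0 0 := by
            refine Pool.Agent.H19.CN.nrt_congr p hp.pos _ _ _ _ _ _ ?_ ?_ ?_
            · rw [sub_self]; exact dvd_zero _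
            · rw [sub_self]; exact dvd_zero _
            · rw [sub_zero]; exact Dvd.dvd.mul_right (dvd_pow h1 (by norm_num)) _
          rw [h4, nrt_sq hp _ (fun h' => ?_)]
          exact (Nat.prime_iff_prime_int.mp hp).not_isUnit (isUnit_of_dvd_one h')
      rw [h3]
      push_cast
      ring
    · rw [if_neg h]
      have h1 : ¬ (p : ℤ) ∣ (f1 f : ℤ) := fun h' => h (hf1.1 (by exact_mod_cast h'))
      unfold Pool.Agent.H91.CF.ch
      by_cases h2 : p = 2
      · subst h2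
        rw [if_pos rfl, Pool.Agent.H73.CF.nrt_2]
        have hA2 : ¬ (2 : ℤ) ∣ A := by exact_mod_cast hA
        have hf2 : ¬ (2 : ℤ) ∣ (f1 f : ℤ) := by exact_mod_cast h1
        have hodd : ∀ b : ℤ, ∃ e : ℤ, (2 * b + 1) ^ 2 = 8 * e + 1 := by
          intro b
          obtain ⟨e, he⟩ := Int.even_mul_succ_self b
          exact ⟨e, by linear_combination 4 * he⟩
        obtain ⟨y, hy⟩ : ∃ y : ℤ, (f1 f : ℤ) ^ 2 * D = 8 * y + D := by
          rcases Int.even_or_odd' (f1 f : ℤ) with ⟨k, hk | hk⟩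
          · exact absurd ⟨k, hk⟩ hf2
          · obtain ⟨e, he⟩ := hodd k
            exact ⟨e * D, by rw [hk, he]; ring⟩
        rw [hy] at hE
        obtain ⟨a, rfl⟩ : ∃ a : ℤ, A = 2 * a + 1 := by
          rcases Int.even_or_odd' A with ⟨k, hk | hk⟩
          · exact absurd ⟨k, hk⟩ hA2
          · exact ⟨k, hk⟩
        have hD4' : (D : ℤ) % 4 = 0 ∨ (D : ℤ) % 4 = 3 := by omega
        rcases Int.even_or_odd' B with ⟨b, rfl | rfl⟩
        · have h5 : 4 * (2 * a + 1) * C - (2 * b) ^ 2 = 8 * (a * C) + 4 * C - 4 * b ^ 2 := by ring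
          rw [h5] at hE
          generalize a * C = x at *
          generalize b ^ 2 = z at *
          push_cast
          split_ifs <;> omega
        · obtain ⟨e, he⟩ := hodd b
          have h5 : 4 * (2 * a + 1) * C - (2 * b + 1) ^ 2 =
              8 * (a * C) + 4 * C - (2 * b + 1) ^ 2 := by ring
          rw [h5, he] at hE
          generalize a * C = x at *
          push_cast
          split_ifs <;> omega
      · rw [if_neg h2, nrt_disc hp h2 A B C _ hE hA]
        have h4 := nrt_scale hp 1 0 D (f1 f : ℤ) h1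
        rw [mul_zero] at h4
        rw [h4]
        ring

end Pool.Agent.H73.CFU
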