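import Pool.Agent.H37.CF.Targets
import Pool.Agent.H73.CF.PNPQ

/-! Complete family, row CNRT: the number of the roots modulo a prime. -/

set_option autoImplicit false

open NumberField
open scoped nonZeroDivisors

namespace Pool.Agent.H73.CF

open Pool.Agent.H31.CN Pool.Agent.H95.CF

theorem nrt_odd {p : ℕ} (hp : p.Prime) (h2 : p ≠ 2) (t n : ℤ) (D : ℤ)
    (hD : t ^ 2 - 4 * n = -D) : nrt p 1 t n = nrt p 1 0 D := by
  have hpr : Prime (p : ℤ) := Nat.prime_iff_prime_int.mp hp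
  have h2p : ¬ (p : ℤ) ∣ 2 := by
    intro h
    have h' : p ∣ 2 := by exact_mod_cast h
    exact h2 ((Nat.prime_dvd_prime_iff_eq hp Nat.prime_two).1 h')
  obtain ⟨x, a, hxa⟩ := (Prime.coprime_iff_not_dvd hpr).2 h2p
  have hcop : ∀ z : ℤ, ¬ (p : ℤ) ∣ z → IsCoprime z (p : ℤ) := fun z hz =>
    ((Prime.coprime_iff_not_dvd hpr).2 hz).symm
  have ha : ¬ (p : ℤ) ∣ a := by
    intro h
    have : (p : ℤ) ∣ 1 := by
      rw [← hxa]
      exact dvd_add (Dvd.intro_left x rfl) (Dvd.dvd.mul_right h _)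
    exact hpr.not_isUnit (isUnit_of_dvd_one this)
  have hk : (p : ℤ) ∣ 2 * a - 1 := ⟨-x, by linear_combination hxa⟩
  have hDD : D = 4 * n - t ^ 2 := by linear_combination hD
  refine (Pool.Agent.H19.CN.nrt_sub p hp.pos 1 t n 1 0 D a (a ^ 2) (-(a * t)) (hcop a ha)
    (hcop _ fun h => ha (hpr.dvd_of_dvd_pow h)) ?_ ?_ ?_).symm
  · have : a ^ 2 * 1 - 1 * a ^ 2 = 0 := by ring
    rw [this]; exact dvd_zero _
  · have : a ^ 2 * 0 - (2 * 1 * a * (-(a * t)) + t * a) = (2 * a - 1) * (a * t) := by ring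
    rw [this]; exact Dvd.dvd.mul_right hk _
  · have : a ^ 2 * D - (1 * (-(a * t)) ^ 2 + t * (-(a * t)) + n) =
        (2 * a - 1) * (n * (2 * a + 1) - a * t ^ 2) := by
      rw [hDD]; ring
    rw [this]; exact Dvd.dvd.mul_right hk _

theorem nrt_two' (t n D : ℤ) (hD : t ^ 2 - 4 * n = -D) :
    (nrt 2 1 t n : ℤ) = 1 + (if D % 8 = 7 then 1 else if D % 8 = 3 then -1 else 0) := by
  rw [nrt_2]
  push_cast
  rcases Int.even_or_odd' t with ⟨b, rfl | rfl⟩
  · have h1 : (2 * b) ^ 2 = 4 * b ^ 2 := by ring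
    rw [h1] at hD
    generalize b ^ 2 = x at *
    split_ifs <;> omega
  · obtain ⟨e, he⟩ := Int.even_mul_succ_self b
    have h1 : (2 * b + 1) ^ 2 = 8 * e + 1 := by linear_combination 4 * he
    rw [h1] at hD
    split_ifs <;> omega

theorem pf_NRT : Pool.Agent.H37.CF.T_NRT := by
  intro t n D p hp hD
  unfold Pool.Agent.H91.CF.ch
  by_cases h2 : p = 2
  · subst h2
    rw [if_pos rfl]
    exact nrt_two' t n D hD
  · rw [if_neg h2, nrt_odd hp h2 t n D hD]
    ring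

end Pool.Agent.H73.CF
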