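import Pool.Agent.H37.CF.Targets

/-! Complete family, row CPRC: characters that are non-trivial on independent subgroups. -/

set_option autoImplicit false

namespace Pool.Agent.H73.CF

theorem card_ch (G : Type) [CommGroup G] [Finite G] : Nat.card (G →* ℂˣ) = Nat.card G := by
  have : NeZero (Monoid.exponent G) := ⟨Monoid.exponent_ne_zero_of_finite⟩
  exact CommGroup.card_monoidHom_of_hasEnoughRootsOfUnity G ℂ

/-- the number of the characters that are trivial on a subgroup -/
theorem card_triv (G : Type) [CommGroup G] [Finite G] (H : Subgroup G) :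
    (Nat.card {φ : G →* ℂˣ // ∀ g ∈ H, φ g = 1} : ℝ) = Nat.card G / Nat.card H := by
  have : NeZero (Monoid.exponent G) := ⟨Monoid.exponent_ne_zero_of_finite⟩
  have h1 := CommGroup.card_domRestrictHom_ker (G := G) (M := ℂ) H
  have h2 : Nat.card {φ : G →* ℂˣ // ∀ g ∈ H, φ g = 1} =
      Nat.card (MonoidHom.domRestrictHom H ℂˣ).ker := by
    refine Nat.card_congr (Equiv.subtypeEquivRight fun φ => ?_)
    rw [MonoidHom.mem_ker]
    constructor
    · intro h
      ext g
      exact congrArg _ (h g g.2)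
    · intro h g hg
      have := DFunLike.congr_fun h (⟨g, hg⟩ : H)
      exact this
  have h3 : (Nat.card G : ℝ) = Nat.card (G ⧸ H) * Nat.card H := by
    exact_mod_cast H.card_eq_card_quotient_mul_card_subgroup
  have h4 : (Nat.card H : ℝ) ≠ 0 := by
    have : 0 < Nat.card H := Nat.card_pos
    exact_mod_cast this.ne'
  rw [h2, h1, h3]
  field_simp

open Classical in
theorem pf_PRC : Pool.Agent.H37.CF.T_PRC := by
  intro G _ _ s H hH
  have hfin : Finite (G →* ℂˣ) := Nat.finite_of_card_ne_zero (by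
    rw [card_ch]; exact Nat.card_pos.ne')
  have := Fintype.ofFinite (G →* ℂˣ)
  set a : (G →* ℂˣ) → ℕ → ℝ := fun φ p => if ∀ g ∈ H p, φ g = 1 then 1 else 0 with ha
  have h1 : (Nat.card {φ : G →* ℂˣ // ∀ p ∈ s, ∃ g ∈ H p, φ g ≠ 1} : ℝ) =
      ∑ φ : G →* ℂˣ, ∏ p ∈ s, (1 - a φ p) := by
    rw [Nat.card_eq_fintype_card, Fintype.card_subtype, Finset.card_filter]
    push_cast
    refine Finset.sum_congr rfl fun φ _ => ?_
    by_cases h : ∀ p ∈ s, ∃ g ∈ H p, φ g ≠ 1
    · rw [if_pos h]
      refine (Finset.prod_eq_one fun p hp => ?_).symm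
      obtain ⟨g, hg, hne⟩ := h p hp
      rw [ha]
      simp only
      rw [if_neg (fun h' => hne (h' g hg)), sub_zero]
    · rw [if_neg h]
      simp only [not_forall, not_exists, not_and, not_not] at h
      obtain ⟨p, hp, hp'⟩ := h
      refine (Finset.prod_eq_zero hp ?_).symm
      rw [ha]
      simp only
      rw [if_pos hp', sub_self]
  have h2 : ∀ φ : G →* ℂˣ, ∏ p ∈ s, (1 - a φ p) =
      ∑ t ∈ s.powerset, (-1) ^ t.card * ∏ p ∈ t, a φ p := by
    intro φ
    rw [Finset.prod_sub]
    refine Finset.sum_congr rfl fun t _ => ?_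
    rw [Finset.prod_const_one, mul_one]
  have h3 : ∀ t ∈ s.powerset, ∑ φ : G →* ℂˣ, ∏ p ∈ t, a φ p =
      Nat.card G * ∏ p ∈ t, (1 / (Nat.card (H p) : ℝ)) := by
    intro t ht
    have h4 : ∀ φ : G →* ℂˣ, ∏ p ∈ t, a φ p =
        if ∀ g ∈ (⨆ p ∈ t, H p : Subgroup G), φ g = 1 then 1 else 0 := by
      intro φ
      have h5 : (∀ g ∈ (⨆ p ∈ t, H p : Subgroup G), φ g = 1) ↔
          ∀ p ∈ t, ∀ g ∈ H p, φ g = 1 := by
        constructor
        · intro h p hp g hg
          exact h g ((le_iSup₂ (f := fun p (_ : p ∈ t) => H p) p hp) hg)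
        · intro h
          have h6 : (⨆ p ∈ t, H p : Subgroup G) ≤ φ.ker :=
            iSup₂_le fun p hp g hg => (MonoidHom.mem_ker).2 (h p hp g hg)
          exact fun g hg => (MonoidHom.mem_ker).1 (h6 hg)
      by_cases h : ∀ p ∈ t, ∀ g ∈ H p, φ g = 1
      · rw [if_pos (h5.2 h)]
        refine Finset.prod_eq_one fun p hp => ?_
        rw [ha]
        exact if_pos (h p hp)
      · rw [if_neg (fun h' => h (h5.1 h'))]
        have h7 : ∃ p ∈ t, ¬ ∀ g ∈ H p, φ g = 1 := by
          by_contra h8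
          exact h fun p hp => by
            by_contra h9
            exact h8 ⟨p, hp, h9⟩
        obtain ⟨p, hp, hp'⟩ := h7
        refine Finset.prod_eq_zero hp ?_
        rw [ha]
        exact if_neg hp'
    rw [Finset.sum_congr rfl fun φ _ => h4 φ, Finset.sum_boole, ← Fintype.card_subtype,
      ← Nat.card_eq_fintype_card, card_triv, hH t (Finset.mem_powerset.1 ht)]
    push_cast
    rw [div_eq_mul_inv, ← Finset.prod_inv_distrib]
    congr 1
    exact Finset.prod_congr rfl fun p _ => (one_div _).symm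
  rw [h1, Finset.sum_congr rfl fun φ _ => h2 φ, Finset.sum_comm, Finset.prod_sub,
    Finset.mul_sum]
  refine Finset.sum_congr rfl fun t ht => ?_
  rw [← Finset.mul_sum, h3 t ht, Finset.prod_const_one]
  ring

end Pool.Agent.H73.CF
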