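import Pool.Agent.H91.CF.TA
import Pool.Agent.H96.CN.LOCOdd

/-! Complete family, row ADNS: the densities of the types for forms, odd primes. -/

set_option autoImplicit false

open MeasureTheory Set Filter
open scoped Real

namespace Pool.Agent.H73.CF

open Pool.Agent.H31.CN Pool.Agent.H91.CF
open Pool.Agent.H96.CN (Av Per2 su gi)

open Classical in
theorem pf_DNS : T_DNS := by
  intro p A τ hp h2 hA hτ
  have hF : Fact p.Prime := ⟨hp⟩
  have hp0 : (p : ℝ) ≠ 0 := by exact_mod_cast hp.ne_zero
  have hql : ql p = p ^ 2 := by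
    unfold ql
    rw [if_neg h2]
  have hAv : ∀ h : ℤ → ℤ → ℝ, Av (ql p) h = 1 / (p : ℝ) ^ 4 * su p h := by
    intro h
    unfold Av su
    rw [hql]
    push_cast
    ring
  have hchi : ∀ Δ : ℤ, Pool.Agent.H91.CF.ch p Δ = chi p Δ := by
    intro Δ
    unfold Pool.Agent.H91.CF.ch chi
    rw [if_neg h2, if_neg h2]
  have hval : ∀ Δ : ℤ, chi p Δ = 0 ∨ chi p Δ = 1 ∨ chi p Δ = -1 := by
    intro Δ
    by_cases h : (p : ℤ) ∣ Δ
    · exact Or.inl (Pool.Agent.H96.CN.chi_zero p h2 h)
    · right
      have := Pool.Agent.H96.CN.chi_sq p h2 h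
      have h3 : (chi p Δ - 1) * (chi p Δ + 1) = 0 := by linear_combination this
      rcases mul_eq_zero.1 h3 with h4 | h4
      · left; linarith
      · right; linarith
  have hind : ∀ B C : ℤ, (if gdp p (4 * A * C - B ^ 2) ∧
      Pool.Agent.H91.CF.ch p (4 * A * C - B ^ 2) = τ then (1 : ℝ) else 0) =
      (if τ = 0 then gi p A B C + (-1) * (gi p A B C * Pool.Agent.H96.CN.ch p A B C ^ 2)
        else (1 / 2) * (gi p A B C * Pool.Agent.H96.CN.ch p A B C ^ 2) +
          ((τ : ℝ) / 2) * (gi p A B C * Pool.Agent.H96.CN.ch p A B C)) := by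
    intro B C
    rw [Pool.Agent.H96.CN.gi_odd p h2, hchi]
    unfold Pool.Agent.H96.CN.ch gdp
    rw [if_neg h2]
    simp only [Finset.mem_insert, Finset.mem_singleton] at hτ
    by_cases h : (p : ℤ) ^ 2 ∣ 4 * (A : ℤ) * C - B ^ 2
    · rw [if_pos h, if_neg (fun h' => h'.1 h)]
      simp
    · rw [if_neg h]
      rcases hval (4 * (A : ℤ) * C - B ^ 2) with h1 | h1 | h1 <;> rcases hτ with rfl | rfl | rfl <;>
        rw [h1] <;> simp [h] <;> norm_num
  rw [hAv]
  simp only [hind]
  by_cases hpA : p ∣ A
  · by_cases hpA2 : p ^ 2 ∣ A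
    · have e1 := Pool.Agent.H96.CN.T_two p h2 A hpA2
      have e2 := Pool.Agent.H96.CN.X1_pos p h2 A hpA
      have e3 := Pool.Agent.H96.CN.X2_pos p h2 A hpA
      by_cases h0 : τ = 0
      · simp only [if_pos h0]
        rw [Pool.Agent.H96.CN.su_add, Pool.Agent.H96.CN.su_mul, e1, e3]
        unfold ddA
        rw [if_neg (not_not.2 hpA), if_neg (by rw [h0]; norm_num), if_neg (fun h => h.2 hpA2)]
        ring
      · simp only [if_neg h0]
        rw [Pool.Agent.H96.CN.su_add, Pool.Agent.H96.CN.su_mul, Pool.Agent.H96.CN.su_mul, e2, e3]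
        unfold ddA
        rw [if_neg (not_not.2 hpA)]
        simp only [Finset.mem_insert, Finset.mem_singleton] at hτ
        rcases hτ with rfl | rfl | rfl
        · rw [if_neg (by norm_num), if_neg (by norm_num)]
          push_cast
          ring
        · exact absurd rfl h0
        · rw [if_pos rfl]
          push_cast
          field_simp
          ring
    · have e1 := Pool.Agent.H96.CN.T_one p h2 A hpA hpA2
      have e2 := Pool.Agent.H96.CN.X1_pos p h2 A hpA
      have e3 := Pool.Agent.H96.CN.X2_pos p h2 A hpA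
      by_cases h0 : τ = 0
      · simp only [if_pos h0]
        rw [Pool.Agent.H96.CN.su_add, Pool.Agent.H96.CN.su_mul, e1, e3]
        unfold ddA
        rw [if_neg (not_not.2 hpA), if_neg (by rw [h0]; norm_num), if_pos ⟨h0, hpA2⟩]
        field_simp
        ring
      · simp only [if_neg h0]
        rw [Pool.Agent.H96.CN.su_add, Pool.Agent.H96.CN.su_mul, Pool.Agent.H96.CN.su_mul, e2, e3]
        unfold ddA
        rw [if_neg (not_not.2 hpA)]
        simp only [Finset.mem_insert, Finset.mem_singleton] at hτ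
        rcases hτ with rfl | rfl | rfl
        · rw [if_neg (by norm_num), if_neg (by norm_num)]
          push_cast
          ring
        · exact absurd rfl h0
        · rw [if_pos rfl]
          push_cast
          field_simp
          ring
  · have e1 := Pool.Agent.H96.CN.T_zero p h2 A hpA
    have e2 := Pool.Agent.H96.CN.X1_zero p h2 A hpA
    have e3 := Pool.Agent.H96.CN.X2_zero p h2 A hpA
    unfold ddA dd
    rw [if_pos hpA]
    by_cases h0 : τ = 0
    · simp only [if_pos h0]
      rw [Pool.Agent.H96.CN.su_add, Pool.Agent.H96.CN.su_mul, e1, e3]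
      field_simp
      ring
    · simp only [if_neg h0]
      rw [Pool.Agent.H96.CN.su_add, Pool.Agent.H96.CN.su_mul, Pool.Agent.H96.CN.su_mul, e2, e3]
      field_simp
      ring

end Pool.Agent.H73.CF
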